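import Pool.Agent.V8H42.TV.Final
import Pool.Agent.H31R3.AL.Transfer
import Pool.Agent.H468R2.KA.P_F_top

set_option autoImplicit false
set_option linter.style.haveILetI false

/-!
# Structures whose automorphism group is complete

Vaught's conjecture (perfect-set form, Borel classes, unary predicates) for the countable structures
such that all pointwise limits of automorphisms are automorphisms.
-/

namespace Pool.Agent.V8H59.VQ

open Set MeasureTheory Filter Topology
open Pool.Agent.H468R2.KA (permTop F_top_closedEmb F_top_basic F_top_base)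

/-- Relational structures on `ℕ`. -/
abbrev Str (a : ℕ → ℕ) : Type := (i : ℕ) → (Fin (a i) → ℕ) → Bool

/-- Structures with further unary predicates. -/
abbrev UStr (a : ℕ → ℕ) : Type := Str a × (ℕ → ℕ → Bool)

/-- Isomorphism of structures. -/
def Iso {a : ℕ → ℕ} (x y : Str a) : Prop :=
  ∃ σ : Equiv.Perm ℕ, ∀ (i : ℕ) (v : Fin (a i) → ℕ), y i (⇑σ ∘ v) = x i v

/-- Isomorphism of structures with unary predicates. -/
def UIso {a : ℕ → ℕ} (x y : UStr a) : Prop :=
  ∃ σ : Equiv.Perm ℕ, (∀ (i : ℕ) (v : Fin (a i) → ℕ), y.1 i (⇑σ ∘ v) = x.1 i v) ∧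
    ∀ i u, y.2 i (σ u) = x.2 i u

/-- Vaught's conjecture with unary predicates. -/
def UVaught {a : ℕ → ℕ} (V : Str a → Prop) : Prop :=
  ∀ B : Set (UStr a), MeasurableSet B → (∀ x y, UIso x y → (x ∈ B ↔ y ∈ B)) →
    (∀ x ∈ B, V x.1) →
    (∃ f : ℕ → UStr a, ∀ x ∈ B, ∃ n, UIso (f n) x) ∨
    (∃ g : (ℕ → Bool) → UStr a, Continuous g ∧ (∀ c, g c ∈ B) ∧
      ∀ c d, UIso (g c) (g d) → c = d)

/-- `σ` is an automorphism. -/
def IsAut {a : ℕ → ℕ} (x : Str a) (σ : Equiv.Perm ℕ) : Prop :=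
  ∀ (i : ℕ) (v : Fin (a i) → ℕ), x i (⇑σ ∘ v) = x i v

/-- Every pointwise limit of automorphisms is onto. -/
def CompleteAut {a : ℕ → ℕ} (x : Str a) : Prop :=
  ∀ f : ℕ → ℕ, (∀ n, ∃ σ : Equiv.Perm ℕ, IsAut x σ ∧ ∀ m < n, σ m = f m) → Function.Surjective f

theorem top_group : @IsTopologicalGroup (Equiv.Perm ℕ) permTop _ := by
  letI : TopologicalSpace (Equiv.Perm ℕ) := permTop
  refine @IsTopologicalGroup.mk _ _ _ ⟨?_⟩ ⟨?_⟩
  · refine continuous_generateFrom_iff.2 ?_
    rintro _ ⟨i, j, rfl⟩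
    have : (fun p : Equiv.Perm ℕ × Equiv.Perm ℕ => p.1 * p.2) ⁻¹' {π : Equiv.Perm ℕ | π i = j} =
        ⋃ k : ℕ, ({π : Equiv.Perm ℕ | π k = j} ×ˢ {π : Equiv.Perm ℕ | π i = k}) := by
      ext p
      simp
    rw [this]
    exact isOpen_iUnion fun k => (F_top_basic k j).prod (F_top_basic i k)
  · refine continuous_generateFrom_iff.2 ?_
    rintro _ ⟨i, j, rfl⟩
    have : (fun p : Equiv.Perm ℕ => p⁻¹) ⁻¹' {π : Equiv.Perm ℕ | π i = j} =
        {π : Equiv.Perm ℕ | π j = i} := by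
      ext p
      show p.symm i = j ↔ p j = i
      rw [Equiv.symm_apply_eq, eq_comm]
    rw [this]
    exact F_top_basic j i

theorem top_polish : @PolishSpace (Equiv.Perm ℕ) permTop := by
  letI : TopologicalSpace (Equiv.Perm ℕ) := permTop
  exact F_top_closedEmb.polishSpace

theorem cont_symm (k : ℕ) : @Continuous _ _ permTop _ fun σ : Equiv.Perm ℕ => σ.symm k := by
  letI : TopologicalSpace (Equiv.Perm ℕ) := permTop
  refine continuous_discrete_rng.2 fun j => ?_
  have : (fun σ : Equiv.Perm ℕ => σ.symm k) ⁻¹' {j} = {π : Equiv.Perm ℕ | π j = k} := by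
    ext p
    show p.symm k = j ↔ p j = k
    rw [Equiv.symm_apply_eq, eq_comm]
  rw [this]
  exact F_top_basic j k

/-- Cauchy sequences in complete automorphism groups converge. -/
theorem tendsto_of {a : ℕ → ℕ} {x : Str a} (hx : CompleteAut x) (t : ℕ → Equiv.Perm ℕ)
    (ht : ∀ n, IsAut x (t n))
    (hc : ∀ O : Set (Equiv.Perm ℕ), @IsOpen _ permTop O → (1 : Equiv.Perm ℕ) ∈ O →
      ∃ N, ∀ m n, N ≤ m → N ≤ n → t m * (t n)⁻¹ ∈ O) :
    ∃ g, @Tendsto _ _ t atTop (@nhds _ permTop g) := by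
  letI : TopologicalSpace (Equiv.Perm ℕ) := permTop
  have hk : ∀ k : ℕ, ∃ N, ∀ n, N ≤ n → (t n).symm k = (t N).symm k := by
    intro k
    obtain ⟨N, hN⟩ := hc {π | π k = k} (F_top_basic k k) rfl
    refine ⟨N, fun n hn => ?_⟩
    have h1 : t n ((t N).symm k) = k := hN n N hn le_rfl
    rw [Equiv.symm_apply_eq]
    exact h1.symm
  choose N hN using hk
  have hti : ∀ n, IsAut x (t n).symm := by
    intro n i v
    have h1 := ht n i (⇑(t n).symm ∘ v)
    have e : ⇑(t n) ∘ (⇑(t n).symm ∘ v) = v := by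
      funext j
      exact (t n).apply_symm_apply _
    rw [e] at h1
    exact h1.symm
  let f : ℕ → ℕ := fun k => (t (N k)).symm k
  have hf : ∀ k n, N k ≤ n → (t n).symm k = f k := fun k n h => hN k n h
  have hsurj : Function.Surjective f := by
    refine hx f fun n => ?_
    let M := (Finset.range n).sup N
    refine ⟨(t M).symm, hti M, fun m hm => ?_⟩
    exact hf m M (Finset.le_sup (f := N) (Finset.mem_range.2 hm))
  have hinj : Function.Injective f := by
    intro k l hkl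
    have h1 := hf k (max (N k) (N l)) (le_max_left _ _)
    have h2 := hf l (max (N k) (N l)) (le_max_right _ _)
    exact (t (max (N k) (N l))).symm.injective (h1.trans (hkl.trans h2.symm))
  let s : Equiv.Perm ℕ := Equiv.ofBijective f ⟨hinj, hsurj⟩
  refine ⟨s.symm, ?_⟩
  refine TopologicalSpace.tendsto_nhds_generateFrom_iff.2 ?_
  rintro _ ⟨i, j, rfl⟩ hij
  have h1 : f j = i := by
    have h2 : s.symm i = j := hij
    rw [Equiv.symm_apply_eq] at h2
    exact h2.symm
  filter_upwards [eventually_ge_atTop (N j)] with n hn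
  have h2 := hf j n hn
  rw [h1, Equiv.symm_apply_eq] at h2
  exact h2.symm

/-- Relabelling. -/
def actU {a : ℕ → ℕ} (σ : Equiv.Perm ℕ) (x : UStr a) : UStr a :=
  (fun i v => x.1 i (⇑σ.symm ∘ v), fun i u => x.2 i (σ.symm u))

theorem uiso_iff {a : ℕ → ℕ} (x y : UStr a) : UIso x y ↔ ∃ σ, actU σ x = y := by
  constructor
  · rintro ⟨σ, h1, h2⟩
    refine ⟨σ, Prod.ext ?_ ?_⟩
    · funext i v
      show x.1 i (⇑σ.symm ∘ v) = y.1 i v
      rw [← h1 i (⇑σ.symm ∘ v)]
      exact congrArg (y.1 i) (funext fun j => σ.apply_symm_apply (v j))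
    · funext i u
      show x.2 i (σ.symm u) = y.2 i u
      rw [← h2 i (σ.symm u), σ.apply_symm_apply]
  · rintro ⟨σ, rfl⟩
    refine ⟨σ, fun i v => ?_, fun i u => ?_⟩
    · show x.1 i (⇑σ.symm ∘ (⇑σ ∘ v)) = x.1 i v
      exact congrArg (x.1 i) (funext fun j => σ.symm_apply_apply (v j))
    · show x.2 i (σ.symm (σ u)) = x.2 i u
      rw [σ.symm_apply_apply]

theorem actU_one {a : ℕ → ℕ} (x : UStr a) : actU 1 x = x := rfl

theorem actU_mul {a : ℕ → ℕ} (σ τ : Equiv.Perm ℕ) (x : UStr a) :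
    actU (σ * τ) x = actU σ (actU τ x) := rfl

theorem meas_actU {a : ℕ → ℕ} : @Measurable _ _
    (@Prod.instMeasurableSpace _ _ (@borel _ permTop) inferInstance) _
    (fun p : Equiv.Perm ℕ × UStr a => actU p.1 p.2) := by
  letI : TopologicalSpace (Equiv.Perm ℕ) := permTop
  letI : MeasurableSpace (Equiv.Perm ℕ) := borel _
  haveI : BorelSpace (Equiv.Perm ℕ) := ⟨rfl⟩
  have hs : ∀ k : ℕ, Measurable fun p : Equiv.Perm ℕ × UStr a => p.1.symm k := fun k =>
    (cont_symm k).measurable.comp measurable_fst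
  refine Measurable.prodMk ?_ ?_
  · refine measurable_pi_iff.2 fun i => measurable_pi_iff.2 fun v => ?_
    have h1 : Measurable fun q : (Fin (a i) → ℕ) × UStr a => q.2.1 i q.1 := by
      refine measurable_from_prod_countable_right fun w => ?_
      exact (measurable_pi_apply w).comp ((measurable_pi_apply i).comp measurable_fst)
    have h2 : Measurable fun p : Equiv.Perm ℕ × UStr a => ((⇑p.1.symm ∘ v : Fin (a i) → ℕ), p.2) :=
      (measurable_pi_iff.2 fun j => hs (v j)).prodMk measurable_snd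
    exact h1.comp h2
  · refine measurable_pi_iff.2 fun i => measurable_pi_iff.2 fun u => ?_
    have h1 : Measurable fun q : ℕ × UStr a => q.2.2 i q.1 := by
      refine measurable_from_prod_countable_right fun w => ?_
      exact (measurable_pi_apply w).comp ((measurable_pi_apply i).comp measurable_snd)
    exact h1.comp ((hs u).prodMk measurable_snd)

/-- Vaught's conjecture for the structures with complete automorphism groups. -/
theorem uv_complete (a : ℕ → ℕ) : UVaught (CompleteAut : Str a → Prop) := by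
  intro B hB hi hV
  letI : TopologicalSpace (Equiv.Perm ℕ) := permTop
  haveI : IsTopologicalGroup (Equiv.Perm ℕ) := top_group
  haveI : PolishSpace (Equiv.Perm ℕ) := top_polish
  letI : MeasurableSpace (Equiv.Perm ℕ) := borel _
  haveI : BorelSpace (Equiv.Perm ℕ) := ⟨rfl⟩
  haveI : StandardBorelSpace B := hB.standardBorel
  letI : MulAction (Equiv.Perm ℕ) B :=
    { smul := fun σ x => ⟨actU σ x.1, (hi _ _ ((uiso_iff _ _).2 ⟨σ, rfl⟩)).1 x.2⟩
      one_smul := fun x => Subtype.ext (actU_one x.1)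
      mul_smul := fun σ τ x => Subtype.ext (actU_mul σ τ x.1) }
  have hm : Measurable fun p : Equiv.Perm ℕ × B => p.1 • p.2 := by
    refine Measurable.subtype_mk ?_
    exact meas_actU.comp (measurable_fst.prodMk (measurable_subtype_coe.comp measurable_snd))
  have hcli : ∀ (x : B) (t : ℕ → Equiv.Perm ℕ), (∀ n, t n • x = x) →
      (∀ O : Set (Equiv.Perm ℕ), IsOpen O → (1 : Equiv.Perm ℕ) ∈ O → ∃ N, ∀ m n, N ≤ m → N ≤ n →
        t m * (t n)⁻¹ ∈ O) → ∃ g, Tendsto t atTop (𝓝 g) := by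
    intro x t ht hc
    refine tendsto_of (hV x.1 x.2) t (fun n i v => ?_) hc
    have h1 : (actU (t n) x.1) = x.1 := congrArg Subtype.val (ht n)
    have h2 : (actU (t n) x.1).1 i (⇑(t n) ∘ v) = x.1.1 i (⇑(t n) ∘ v) := by rw [h1]
    rw [← h2]
    show x.1.1 i (⇑(t n).symm ∘ (⇑(t n) ∘ v)) = x.1.1 i v
    exact congrArg (x.1.1 i) (funext fun j => (t n).symm_apply_apply (v j))
  rcases Pool.Agent.V8H42.TV.main hm hcli with ⟨S, hS, hS2⟩ | ⟨f, hf, hf2⟩
  · left
    rcases S.eq_empty_or_nonempty with hSe | hne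
    · refine ⟨fun _ => (fun _ _ => false, fun _ _ => false), fun x hx => ?_⟩
      obtain ⟨s, hs, -⟩ := hS2 ⟨x, hx⟩
      rw [hSe] at hs
      exact hs.elim
    · obtain ⟨e, rfl⟩ := hS.exists_eq_range hne
      refine ⟨fun n => (e n).1, fun x hx => ?_⟩
      obtain ⟨s, ⟨n, rfl⟩, g, hg⟩ := hS2 ⟨x, hx⟩
      exact ⟨n, (uiso_iff _ _).2 ⟨g, congrArg Subtype.val hg⟩⟩
  · right
    haveI : SecondCountableTopology (UStr a) := inferInstance
    obtain ⟨h, h1, h2⟩ := Pool.Agent.H31R3.AL.cont_of_borel (fun c => (f c).1)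
      (measurable_subtype_coe.comp hf)
    refine ⟨fun c => (f (h c)).1, h2, fun c => (f (h c)).2, fun c d hcd => ?_⟩
    obtain ⟨g, hg⟩ := (uiso_iff _ _).1 hcd
    by_contra hne
    exact hf2 (h c) (h d) (fun he => hne (h1 he)) ⟨g, Subtype.ext hg⟩

end Pool.Agent.V8H59.VQ
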