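import Pool.Agent.V8H59.VQ.Cli

set_option autoImplicit false

/-!
# The class of structures with complete automorphism groups is coanalytic and invariant
-/

namespace Pool.Agent.V8H59.VQ

open Set MeasureTheory Filter Topology

theorem inv_complete {a : ℕ → ℕ} (x y : Str a) (h : Iso x y) (hx : CompleteAut x) :
    CompleteAut y := by
  obtain ⟨σ, hσ⟩ := h
  intro f hf
  have h1 : Function.Surjective (⇑σ.symm ∘ f ∘ ⇑σ) := by
    refine hx _ fun n => ?_
    let M := (Finset.range n).sup fun m => σ m + 1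
    obtain ⟨τ, hτ, hτ2⟩ := hf M
    refine ⟨σ.trans (τ.trans σ.symm), fun i v => ?_, fun m hm => ?_⟩
    · have h2 := hτ i (⇑σ ∘ v)
      have h3 := hσ i v
      have h4 := hσ i (⇑σ.symm ∘ (⇑τ ∘ (⇑σ ∘ v)))
      have e : ⇑σ ∘ (⇑σ.symm ∘ (⇑τ ∘ (⇑σ ∘ v))) = ⇑τ ∘ (⇑σ ∘ v) :=
        funext fun j => σ.apply_symm_apply _
      rw [e, h2, h3] at h4
      exact h4.symm
    · show σ.symm (τ (σ m)) = σ.symm (f (σ m))
      have h5 : σ m + 1 ≤ M := Finset.le_sup (f := fun m => σ m + 1) (Finset.mem_range.2 hm)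
      rw [hτ2 (σ m) h5]
  intro j
  obtain ⟨k, hk⟩ := h1 (σ.symm j)
  exact ⟨σ k, σ.symm.injective hk⟩

/-- witnesses that the automorphism group is not complete -/
def Wit (a : ℕ → ℕ) : Set ((ℕ × (ℕ → ℕ)) × ((ℕ → ℕ → ℕ) × (ℕ → ℕ → ℕ)) × Str a) :=
  {p | (∀ m, p.1.2 m ≠ p.1.1) ∧
    (∀ n k, p.2.1.1 n (p.2.1.2 n k) = k) ∧ (∀ n k, p.2.1.2 n (p.2.1.1 n k) = k) ∧
    (∀ n m, m < n → p.2.1.1 n m = p.1.2 m) ∧
    ∀ (n i : ℕ) (v : Fin (a i) → ℕ), p.2.2 i (fun j => p.2.1.1 n (v j)) = p.2.2 i v}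

theorem closed_wit (a : ℕ → ℕ) : IsClosed (Wit a) := by
  have hd : ∀ {Z : Type} [TopologicalSpace Z] (u w : Z → ℕ), Continuous u → Continuous w →
      IsClosed {z | u z = w z} := fun u w hu hw => isClosed_eq hu hw
  have c1 : Continuous fun p : (ℕ × (ℕ → ℕ)) × ((ℕ → ℕ → ℕ) × (ℕ → ℕ → ℕ)) × Str a => p.1.1 :=
    continuous_fst.comp continuous_fst
  have c2 : ∀ m, Continuous
      fun p : (ℕ × (ℕ → ℕ)) × ((ℕ → ℕ → ℕ) × (ℕ → ℕ → ℕ)) × Str a => p.1.2 m := fun m =>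
    (continuous_apply m).comp (continuous_snd.comp continuous_fst)
  have c3 : ∀ n m, Continuous
      fun p : (ℕ × (ℕ → ℕ)) × ((ℕ → ℕ → ℕ) × (ℕ → ℕ → ℕ)) × Str a => p.2.1.1 n m := fun n m =>
    (continuous_apply m).comp ((continuous_apply n).comp
      (continuous_fst.comp (continuous_fst.comp continuous_snd)))
  have c4 : ∀ n m, Continuous
      fun p : (ℕ × (ℕ → ℕ)) × ((ℕ → ℕ → ℕ) × (ℕ → ℕ → ℕ)) × Str a => p.2.1.2 n m := fun n m =>
    (continuous_apply m).comp ((continuous_apply n).comp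
      (continuous_snd.comp (continuous_fst.comp continuous_snd)))
  have c5 : ∀ i v, Continuous
      fun p : (ℕ × (ℕ → ℕ)) × ((ℕ → ℕ → ℕ) × (ℕ → ℕ → ℕ)) × Str a => p.2.2 i v := fun i v =>
    (continuous_apply v).comp ((continuous_apply i).comp (continuous_snd.comp continuous_snd))
  -- evaluation of a continuous family of functions at a continuous point
  have ev : ∀ {Z W : Type} [TopologicalSpace Z] [TopologicalSpace W] {I : Type} [TopologicalSpace I]
      [DiscreteTopology I] (F : Z → I → W) (u : Z → I), (∀ i, Continuous fun z => F z i) →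
      Continuous u → Continuous fun z => F z (u z) := by
    intro Z W _ _ I _ _ F u hF hu
    rw [continuous_iff_continuousAt]
    intro z
    have h1 : ∀ᶠ z' in 𝓝 z, u z' = u z := by
      have := hu.continuousAt (x := z)
      exact this.eventually (eventually_of_mem ((isOpen_discrete {u z}).mem_nhds rfl)
        fun _ h => h)
    refine ((hF (u z)).continuousAt (x := z)).congr ?_
    filter_upwards [h1] with z' hz'
    rw [hz']
  have e1 : IsClosed {p : (ℕ × (ℕ → ℕ)) × ((ℕ → ℕ → ℕ) × (ℕ → ℕ → ℕ)) × Str a |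
      ∀ m, p.1.2 m ≠ p.1.1} := by
    rw [ofPred_forall]
    refine isClosed_iInter fun m => ?_
    have h1 : Continuous fun p : (ℕ × (ℕ → ℕ)) × ((ℕ → ℕ → ℕ) × (ℕ → ℕ → ℕ)) × Str a =>
        (p.1.2 m, p.1.1) := (c2 m).prodMk c1
    exact (isClosed_discrete {q : ℕ × ℕ | q.1 ≠ q.2}).preimage h1
  have e2 : IsClosed {p : (ℕ × (ℕ → ℕ)) × ((ℕ → ℕ → ℕ) × (ℕ → ℕ → ℕ)) × Str a |
      ∀ n k, p.2.1.1 n (p.2.1.2 n k) = k} := by
    simp only [ofPred_forall]
    exact isClosed_iInter fun n => isClosed_iInter fun k =>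
      hd _ _ (ev (fun p i => p.2.1.1 n i) _ (c3 n) (c4 n k)) continuous_const
  have e3 : IsClosed {p : (ℕ × (ℕ → ℕ)) × ((ℕ → ℕ → ℕ) × (ℕ → ℕ → ℕ)) × Str a |
      ∀ n k, p.2.1.2 n (p.2.1.1 n k) = k} := by
    simp only [ofPred_forall]
    exact isClosed_iInter fun n => isClosed_iInter fun k =>
      hd _ _ (ev (fun p i => p.2.1.2 n i) _ (c4 n) (c3 n k)) continuous_const
  have e4 : IsClosed {p : (ℕ × (ℕ → ℕ)) × ((ℕ → ℕ → ℕ) × (ℕ → ℕ → ℕ)) × Str a |
      ∀ n m, m < n → p.2.1.1 n m = p.1.2 m} := by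
    simp only [ofPred_forall]
    exact isClosed_iInter fun n => isClosed_iInter fun m => isClosed_iInter fun _ =>
      hd _ _ (c3 n m) (c2 m)
  have e5 : IsClosed {p : (ℕ × (ℕ → ℕ)) × ((ℕ → ℕ → ℕ) × (ℕ → ℕ → ℕ)) × Str a |
      ∀ (n i : ℕ) (v : Fin (a i) → ℕ), p.2.2 i (fun j => p.2.1.1 n (v j)) = p.2.2 i v} := by
    simp only [ofPred_forall]
    refine isClosed_iInter fun n => isClosed_iInter fun i => isClosed_iInter fun v => ?_
    refine isClosed_eq ?_ (c5 i v)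
    exact ev (fun (p : (ℕ × (ℕ → ℕ)) × ((ℕ → ℕ → ℕ) × (ℕ → ℕ → ℕ)) × Str a)
        (w : Fin (a i) → ℕ) => p.2.2 i w) (fun p j => p.2.1.1 n (v j)) (c5 i)
      (continuous_pi fun j => c3 n (v j))
  exact e1.inter (e2.inter (e3.inter (e4.inter e5)))

theorem coan_complete (a : ℕ → ℕ) : AnalyticSet {x : Str a | ¬ CompleteAut x} := by
  have hP1 : PolishSpace (ℕ → ℕ) := inferInstance
  have hP2 : PolishSpace (ℕ → ℕ → ℕ) := inferInstance
  have hP3 : PolishSpace (Str a) := Pool.Agent.H533R2.VS.kis_pRS a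
  have hP4 : PolishSpace ((ℕ × (ℕ → ℕ)) × ((ℕ → ℕ → ℕ) × (ℕ → ℕ → ℕ)) × Str a) := inferInstance
  have h2 : {x : Str a | ¬ CompleteAut x} = (fun p => p.2.2) '' Wit a := by
    ext x
    constructor
    · intro hx
      have hx : ¬ CompleteAut x := hx
      unfold CompleteAut at hx
      push Not at hx
      obtain ⟨f, hf, hs⟩ := hx
      choose τ hτ hτ2 using hf
      unfold Function.Surjective at hs
      push Not at hs
      obtain ⟨j, hj⟩ := hs
      refine ⟨((j, f), ((fun n => ⇑(τ n), fun n => ⇑(τ n).symm), x)),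
        ⟨hj, fun n k => (τ n).apply_symm_apply k, fun n k => (τ n).symm_apply_apply k,
          fun n m hm => hτ2 n m hm, fun n i v => hτ n i v⟩, rfl⟩
    · rintro ⟨p, ⟨k1, k2, k3, k4, k5⟩, rfl⟩ hx
      have hs := hx p.1.2 fun n =>
        ⟨⟨p.2.1.1 n, p.2.1.2 n, k3 n, k2 n⟩, fun i v => k5 n i v, fun m hm => k4 n m hm⟩
      obtain ⟨m, hm⟩ := hs p.1.1
      exact k1 m hm
  rw [h2]
  exact (closed_wit a).analyticSet.image_of_continuous (continuous_snd.comp continuous_snd)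

end Pool.Agent.V8H59.VQ
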