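import Pool.Agent.V8H59.VQ.Coan
import Pool.Agent.Results.MP_5607ba_lc.LabelledStructures

set_option autoImplicit false
set_option linter.style.haveILetI false

/-!
# Structures whose elements are labelled by points of a space with an equivalence relation
-/

namespace Pool.Agent.V8H59.VQ

open Set MeasureTheory Filter Topology
open Pool.Agent.Results.MP_5607ba_lc.LabelledStructures (Dichotomy Dichotomic LabelIso)

/-- Isomorphisms of structures. -/
def isoI {a : ℕ → ℕ} (σ : Equiv.Perm ℕ) (x y : Str a) : Prop :=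
  ∀ (i : ℕ) (v : Fin (a i) → ℕ), y i (⇑σ ∘ v) = x i v

/-- Labels in `ℕ` as unary predicates. -/
def cod {a : ℕ → ℕ} (p : Str a × (ℕ → ℕ)) : UStr a := (p.1, fun i m => decide (p.2 m = i))

theorem cod_inj {a : ℕ → ℕ} : Function.Injective (cod : Str a × (ℕ → ℕ) → UStr a) := by
  rintro ⟨x, l⟩ ⟨y, m⟩ h
  have h1 : x = y := congrArg Prod.fst h
  have h2 : (fun i k => decide (l k = i)) = (fun i k => decide (m k = i) : ℕ → ℕ → Bool) :=
    congrArg Prod.snd h
  refine Prod.ext h1 (funext fun k => ?_)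
  have h3 := congrFun (congrFun h2 (l k)) k
  simp only [decide_true] at h3
  exact (of_decide_eq_true h3.symm).symm

theorem cod_meas {a : ℕ → ℕ} : Measurable (cod : Str a × (ℕ → ℕ) → UStr a) := by
  refine measurable_fst.prodMk ?_
  refine measurable_pi_iff.2 fun i => measurable_pi_iff.2 fun m => ?_
  have h1 : Measurable fun k : ℕ => decide (k = i) := measurable_from_top
  exact h1.comp ((measurable_pi_apply m).comp measurable_snd)

theorem uiso_symm {a : ℕ → ℕ} {x y : UStr a} (h : UIso x y) : UIso y x := by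
  obtain ⟨σ, h1, h2⟩ := h
  refine ⟨σ.symm, fun i v => ?_, fun i u => ?_⟩
  · rw [← h1 i (⇑σ.symm ∘ v)]
    exact congrArg (y.1 i) (funext fun j => σ.apply_symm_apply (v j))
  · rw [← h2 i (σ.symm u), σ.apply_symm_apply]

theorem uiso_trans {a : ℕ → ℕ} {x y z : UStr a} (h : UIso x y) (h' : UIso y z) : UIso x z := by
  obtain ⟨σ, h1, h2⟩ := h
  obtain ⟨τ, h3, h4⟩ := h'
  refine ⟨σ.trans τ, fun i v => ?_, fun i u => ?_⟩
  · exact (h3 i (⇑σ ∘ v)).trans (h1 i v)
  · exact (h4 i (σ u)).trans (h2 i u)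

theorem lab_of_uiso {a : ℕ → ℕ} {p q : Str a × (ℕ → ℕ)} (h : UIso (cod p) (cod q)) :
    LabelIso isoI (· = ·) p q := by
  obtain ⟨σ, h1, h2⟩ := h
  refine ⟨σ, h1, fun j => ?_⟩
  have h3 : decide (q.2 (σ j) = p.2 j) = decide (p.2 j = p.2 j) := h2 (p.2 j) j
  rw [decide_eq_decide] at h3
  exact (h3.2 rfl).symm

theorem exists_of_uiso {a : ℕ → ℕ} {p : Str a × (ℕ → ℕ)} {y : UStr a} (h : UIso (cod p) y) :
    ∃ q, cod q = y ∧ LabelIso isoI (· = ·) p q := by
  obtain ⟨σ, h1, h2⟩ := h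
  refine ⟨(y.1, fun m => p.2 (σ.symm m)), ?_, σ, h1, fun j => ?_⟩
  · refine Prod.ext rfl (funext fun i => funext fun m => ?_)
    have h3 := h2 i (σ.symm m)
    rw [σ.apply_symm_apply] at h3
    exact h3.symm
  · show p.2 j = p.2 (σ.symm (σ j))
    rw [σ.symm_apply_apply]

theorem base {a : ℕ → ℕ} {V : Str a → Prop} (hV : UVaught V) :
    Dichotomic (LabelIso isoI (· = ·)) {p : Str a × (ℕ → ℕ) | p.1 ∈ {x : Str a | V x}} := by
  intro C hC hCV hCi
  haveI hP3 : PolishSpace (Str a) := Pool.Agent.H533R2.VS.kis_pRS a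
  haveI hP2 : PolishSpace (ℕ → ℕ) := inferInstance
  haveI hP4 : PolishSpace (Str a × (ℕ → ℕ)) := inferInstance
  haveI hS : StandardBorelSpace (Str a × (ℕ → ℕ)) := inferInstance
  have hB : MeasurableSet (cod '' C) :=
    hC.image_of_measurable_injOn cod_meas cod_inj.injOn
  have hBi : ∀ x y : UStr a, UIso x y → x ∈ cod '' C → y ∈ cod '' C := by
    rintro _ y h ⟨p, hp, rfl⟩
    obtain ⟨q, hq, hl⟩ := exists_of_uiso h
    exact ⟨q, hCi p hp q hl, hq⟩
  rcases hV (cod '' C) hB (fun x y h => ⟨hBi x y h, hBi y x (uiso_symm h)⟩)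
    (by rintro _ ⟨p, hp, rfl⟩; exact hCV hp) with ⟨f, hf⟩ | ⟨g, hg, hgB, hgi⟩
  · left
    let S : Set (Str a × (ℕ → ℕ)) := {p | ∃ n, ∃ h : ∃ q ∈ C, UIso (f n) (cod q), p = h.choose}
    refine ⟨S, ?_, ?_, fun y hy => ?_⟩
    · rintro p ⟨n, h, rfl⟩
      exact h.choose_spec.1
    · have : S ⊆ ⋃ n, {p | ∃ h : ∃ q ∈ C, UIso (f n) (cod q), p = h.choose} := by
        rintro p ⟨n, h⟩
        exact mem_iUnion.2 ⟨n, h⟩
      refine (countable_iUnion fun n => ?_).mono this
      refine Set.Subsingleton.countable ?_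
      rintro _ ⟨h, rfl⟩ _ ⟨h', rfl⟩
      rfl
    · obtain ⟨n, hn⟩ := hf (cod y) ⟨y, hy, rfl⟩
      have h : ∃ q ∈ C, UIso (f n) (cod q) := ⟨y, hy, hn⟩
      refine ⟨h.choose, ⟨n, h, rfl⟩, ?_⟩
      exact lab_of_uiso (uiso_trans (uiso_symm hn) h.choose_spec.2)
  · right
    choose X hXC hXc using hgB
    haveI hsb : StandardBorelSpace C := hC.standardBorel
    have hcB : Measurable fun x : C => cod x.1 := cod_meas.comp measurable_subtype_coe
    have hme : MeasurableEmbedding fun x : C => cod x.1 :=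
      hcB.measurableEmbedding fun x y h => Subtype.ext (cod_inj h)
    have hX : Measurable fun A => (⟨X A, hXC A⟩ : C) := by
      rw [← hme.measurable_comp_iff]
      have e : ((fun x : C => cod x.1) ∘ fun A => (⟨X A, hXC A⟩ : C)) = g := by
        funext A
        exact hXc A
      rw [e]
      exact hg.measurable
    refine ⟨X, measurable_subtype_coe.comp hX, hXC, fun b b' hbb h => hbb (hgi b b' ?_)⟩
    rw [← hXc, ← hXc]
    obtain ⟨σ, h1, h2⟩ := h
    refine ⟨σ, h1, fun i u => ?_⟩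
    show decide ((X b').2 (σ u) = i) = decide ((X b).2 u = i)
    rw [h2 u]

/-- Structures in `V` whose elements are labelled. -/
theorem lab {a : ℕ → ℕ} {V : Str a → Prop} (hV : UVaught V) {X : Type} [TopologicalSpace X]
    [PolishSpace X] [MeasurableSpace X] [BorelSpace X] {E : X → X → Prop} (hE : Equivalence E)
    (hEa : AnalyticSet {q : X × X | E q.1 q.2}) (Z : Set X) (hX : Dichotomic E Z) :
    Dichotomic (LabelIso (isoI (a := a)) E) {p : Str a × (ℕ → X) | V p.1 ∧ ∀ j, p.2 j ∈ Z} := by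
  haveI hP3 : PolishSpace (Str a) := Pool.Agent.H533R2.VS.kis_pRS a
  exact Pool.Agent.Results.MP_5607ba_lc.LabelledStructures.general hE hEa isoI
    (fun y i v => rfl) Z {x : Str a | V x} hX (base hV)

end Pool.Agent.V8H59.VQ
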